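import Pool.Agent.H86.T4G.Df
import Pool.Agent.H68.SS.Vc

/-!
The local condition is invariant under a change of variables (no row).
-/

set_option autoImplicit false
open scoped Classical

open WeierstrassCurve IsDedekindDomain NumberField Pool.Agent.H10 Pool.Agent.H11 H78D H68SS H86G

namespace H86J

theorem newX_inv {F : Type} [Field F] (C : VariableChange F) (x : F) :
    newX C⁻¹ (newX C x) = x := by
  have hv : ((C.u⁻¹ : Fˣ) : F) * (C.u : F) = 1 := C.u.inv_mul
  simp only [newX, VariableChange.inv_def, inv_inv]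
  generalize ((C.u⁻¹ : Fˣ) : F) = v at hv ⊢
  generalize (C.u : F) = u at hv ⊢
  linear_combination x * (v * u + 1) * hv

theorem newY_inv {F : Type} [Field F] (C : VariableChange F) (x y : F) :
    newY C⁻¹ (newX C x) (newY C x y) = y := by
  have hv : ((C.u⁻¹ : Fˣ) : F) * (C.u : F) = 1 := C.u.inv_mul
  simp only [newX, newY, VariableChange.inv_def, inv_inv]
  generalize ((C.u⁻¹ : Fˣ) : F) = v at hv ⊢
  generalize (C.u : F) = u at hv ⊢
  linear_combination y * ((v * u) ^ 2 + v * u + 1) * hv

theorem map_inv_vc {F L : Type} [Field F] [Field L] (f : F →+* L) (C : VariableChange F) :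
    (C⁻¹).map f = (C.map f)⁻¹ := by
  ext <;> simp [VariableChange.map, VariableChange.inv_def]

/-- The local condition for the transformed curve gives the local condition for the curve. -/
theorem dx_vc {F : Type} [Field F] [NumberField F] {l : ℕ} {W W₁ : WeierstrassCurve F}
    (C : VariableChange F) (hC : C • W = W₁) {T : W.toAffine.Point} {T₁ : W₁.toAffine.Point}
    {x y : F} {h : W.toAffine.Nonsingular x y} (hT : T = Affine.Point.some x y h)
    {h₁ : W₁.toAffine.Nonsingular (newX C x) (newY C x y)}
    (hT₁ : T₁ = Affine.Point.some (newX C x) (newY C x y) h₁) {ζ : F}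
    {D : Subgroup (AlgebraicClosure F ≃ₐ[F] AlgebraicClosure F)} {u : F}
    (hD : DX l W₁ T₁ ζ D u) : DX l W T ζ D u := by
  have hC' : C⁻¹ • W₁ = W := by rw [← hC, inv_smul_smul]
  have hCL : (C⁻¹).map (algebraMap F (AlgebraicClosure F)) •
      W₁.baseChange (AlgebraicClosure F) = W.baseChange (AlgebraicClosure F) := by
    have h1 : (C⁻¹).map (algebraMap F (AlgebraicClosure F)) •
        W₁.baseChange (AlgebraicClosure F) = (C⁻¹ • W₁).baseChange (AlgebraicClosure F) :=
      WeierstrassCurve.map_variableChange ..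
    rw [h1, hC']
  obtain ⟨φ, -, hφ⟩ := exists_vc ((C⁻¹).map (algebraMap F (AlgebraicClosure F))) hCL
  have hact : ∀ (σ : AlgebraicClosure F ≃ₐ[F] AlgebraicClosure F)
      (P : (W₁.baseChange (AlgebraicClosure F)).toAffine.Point),
      φ (Pool.Agent.H10.act (inv_bc F W₁) σ P) = Pool.Agent.H10.act (inv_bc F W) σ (φ P) := by
    intro σ P
    have hCσ : ((C⁻¹).map (algebraMap F (AlgebraicClosure F))).map
        (σ : AlgebraicClosure F →+* AlgebraicClosure F) =
        (C⁻¹).map (algebraMap F (AlgebraicClosure F)) := by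
      rw [VariableChange.map_map]
      congr 1
      exact RingHom.ext fun z => σ.commutes z
    match P with
    | 0 => rw [map_zero, map_zero, map_zero]
    | .some x y h =>
      obtain ⟨h1, e1⟩ := hφ x y h
      have h0 : (W₁.baseChange (AlgebraicClosure F)).toAffine.Nonsingular
          ((σ : AlgebraicClosure F →+* AlgebraicClosure F) x)
          ((σ : AlgebraicClosure F →+* AlgebraicClosure F) y) := by
        rw [← (inv_bc F W₁) σ]
        exact (Affine.map_nonsingular _ (σ : AlgebraicClosure F →+* AlgebraicClosure F).injective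
          x y).mpr h
      obtain ⟨h2, e2⟩ := hφ _ _ h0
      have e3 : Pool.Agent.H10.act (inv_bc F W₁) σ (.some x y h) = .some _ _ h0 := rfl
      have e4 : Pool.Agent.H10.act (inv_bc F W) σ (.some _ _ h1) = .some
        ((σ : AlgebraicClosure F →+* AlgebraicClosure F)
          (newX ((C⁻¹).map (algebraMap F (AlgebraicClosure F))) x))
        ((σ : AlgebraicClosure F →+* AlgebraicClosure F)
          (newY ((C⁻¹).map (algebraMap F (AlgebraicClosure F))) x y)) _ := rfl
      rw [e3, e2, e1, e4, Affine.Point.some.injEq, newX_map, newY_map, hCσ]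
      exact ⟨rfl, rfl⟩
  obtain ⟨r, P, hr, hP⟩ := hD
  refine ⟨r, φ P, hr, fun σ hσ a ha => ?_⟩
  rw [← hact, ← map_sub, hP σ hσ a ha, map_nsmul]
  congr 1
  subst hT
  subst hT₁
  have h0 : (W₁.baseChange (AlgebraicClosure F)).toAffine.Nonsingular
      (algebraMap F (AlgebraicClosure F) (newX C x))
      (algebraMap F (AlgebraicClosure F) (newY C x y)) :=
    (Affine.map_nonsingular _ (algebraMap F (AlgebraicClosure F)).injective _ _).mpr h₁
  obtain ⟨h2, e2⟩ := hφ _ _ h0
  have e3 : tp W₁ (.some (newX C x) (newY C x y) h₁) = .some _ _ h0 := rfl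
  have e4 : tp W (.some x y h) = .some (algebraMap F (AlgebraicClosure F) x)
    (algebraMap F (AlgebraicClosure F) y) _ := rfl
  rw [e3, e2, e4, Affine.Point.some.injEq, ← newX_map, ← newY_map, newX_inv, newY_inv]
  exact ⟨rfl, rfl⟩

end H86J
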